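import Pool.Agent.H28Z.DaDefs

open Metric Set Filter Topology

noncomputable section

namespace Pool.Agent.H28Z.Da

theorem rigid652_disc {K : ℂ → ℂ} (hK : DifferentiableOn ℂ K (ball 0 1))
    (hre : ∀ ζ ∈ ball (0 : ℂ) 1, 0 ≤ (K ζ).re) {a A e c : ℝ} (ha : 0 < a) (h0 : K 0 = a)
    (hA : a ≤ A) (he : 0 < e) (hd : a - (deriv K 0).re / 2 ≤ e) (hc : 0 < c) {ζ : ℂ}
    (hζ : ‖ζ‖ ≤ 1 - c) :
    ‖K ζ - a * ((1 + ζ) / (1 - ζ))‖ ≤ 2 * (√(2 * A * e) + 2 * e / c) / c ^ 2 := by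
  have hζ1 : ζ ∈ ball (0 : ℂ) 1 := mem_ball_zero_iff.2 (by linarith)
  have h01 : (0 : ℂ) ∈ ball (0 : ℂ) 1 := mem_ball_self one_pos
  have hb : ball (0 : ℂ) 1 ∈ 𝓝 0 := ball_mem_nhds _ one_pos
  have ha' : (a : ℂ) ≠ 0 := by exact_mod_cast ha.ne'
  have hne : ∀ ξ ∈ ball (0 : ℂ) 1, K ξ + a ≠ 0 := fun ξ hξ h => by
    have := congrArg Complex.re h
    simp only [Complex.add_re, Complex.ofReal_re, Complex.zero_re] at this
    linarith [hre ξ hξ]
  obtain ⟨F, hFe⟩ : ∃ F : ℂ → ℂ, F = fun ξ => (K ξ - a) / (K ξ + a) := ⟨_, rfl⟩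
  have hF : DifferentiableOn ℂ F (ball 0 1) := by
    rw [hFe]; exact (hK.sub_const _).div (hK.add_const _) hne
  have F0 : F 0 = 0 := by simp [hFe, h0]
  have Fm : MapsTo F (ball 0 1) (closedBall 0 1) := fun ξ hξ => by
    rw [hFe, mem_closedBall_zero_iff, norm_div, div_le_one (norm_pos_iff.2 (hne ξ hξ)),
      ← sq_le_sq₀ (norm_nonneg _) (norm_nonneg _), Complex.sq_norm, Complex.sq_norm]
    simp only [Complex.normSq_apply, Complex.sub_re, Complex.add_re, Complex.sub_im, Complex.add_im,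
      Complex.ofReal_re, Complex.ofReal_im]
    nlinarith [mul_nonneg (hre ξ hξ) ha.le]
  have Fd : deriv F 0 = deriv K 0 / (2 * a) := by
    have h1 := (hK.differentiableAt hb).hasDerivAt
    rw [hFe, ((h1.sub_const (a : ℂ)).fun_div (h1.add_const (a : ℂ)) (hne 0 h01)).deriv, h0]
    field_simp
    ring
  have hψ : ∀ ξ ∈ ball (0 : ℂ) 1, ‖dslope F 0 ξ‖ ≤ 1 := fun ξ hξ => by
    simpa using Complex.norm_dslope_le_div_of_mapsTo_ball hF (by rwa [F0]) hξ
  have dψ : DifferentiableOn ℂ (dslope F 0) (ball 0 1) :=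
    (Complex.differentiableOn_dslope hb).2 hF
  obtain ⟨p, hp⟩ : ∃ p, p = dslope F 0 0 := ⟨_, rfl⟩
  have p1 : ‖p‖ ≤ 1 := hp ▸ hψ 0 h01
  have p2 : a * (1 - p.re) ≤ e := by
    have : p.re = (deriv K 0).re / (2 * a) := by
      rw [hp, dslope_same, Fd, show (2 * a : ℂ) = ((2 * a : ℝ) : ℂ) by push_cast; rfl,
        Complex.div_ofReal_re]
    rw [this]
    field_simp
    linarith
  have p3 : a * ‖1 - p‖ ≤ √(2 * A * e) := by
    refine Real.le_sqrt_of_sq_le ?_
    have h1 : ‖p‖ ^ 2 ≤ 1 := by nlinarith [norm_nonneg p]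
    have h2 : ‖1 - p‖ ^ 2 ≤ 2 * (1 - p.re) := by
      rw [Complex.sq_norm, Complex.normSq_apply] at h1 ⊢
      simp only [Complex.sub_re, Complex.sub_im, Complex.one_re, Complex.one_im]
      nlinarith
    calc (a * ‖1 - p‖) ^ 2 = a ^ 2 * ‖1 - p‖ ^ 2 := by ring
      _ ≤ a ^ 2 * (2 * (1 - p.re)) := by gcongr
      _ = 2 * a * (a * (1 - p.re)) := by ring
      _ ≤ 2 * a * e := by gcongr
      _ ≤ 2 * A * e := by gcongr
  have p4 : a * ‖dslope F 0 ζ - p‖ ≤ 2 * e / c := by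
    have := Complex.borelCaratheodory_zero (M := e / a) (by positivity) (dψ.sub_const p)
      (fun ξ hξ => by
        have h1 := (Complex.re_le_norm _).trans (hψ ξ hξ)
        simp only [mem_ofPred_eq, Complex.sub_re]
        rw [le_div_iff₀ ha]
        nlinarith) one_pos hζ1 (by simp [hp])
    have h2 : 2 * (e / a) * ‖ζ‖ / (1 - ‖ζ‖) ≤ 2 * (e / a) * 1 / c := by
      gcongr
      · linarith
      · linarith
    calc _ ≤ a * (2 * (e / a) * 1 / c) := by gcongr; exact this.trans h2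
      _ = 2 * e / c := by field_simp
  have q1 : ‖F ζ‖ ≤ ‖ζ‖ := Complex.norm_le_norm_of_mapsTo_ball hF Fm F0 (by linarith)
  have q2 : c ≤ ‖1 - F ζ‖ := by
    have := norm_sub_norm_le (1 : ℂ) (F ζ)
    rw [norm_one] at this
    linarith
  have q3 : c ≤ ‖1 - ζ‖ := by
    have := norm_sub_norm_le (1 : ℂ) ζ
    rw [norm_one] at this
    linarith
  have n2 : 1 - F ζ ≠ 0 := norm_pos_iff.1 (by linarith)
  have n3 : 1 - ζ ≠ 0 := norm_pos_iff.1 (by linarith)
  have e1 : F ζ = ζ * dslope F 0 ζ := by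
    have := sub_smul_dslope F 0 ζ
    rw [F0, sub_zero, sub_zero, smul_eq_mul] at this
    exact this.symm
  have e2 : K ζ = a * ((1 + F ζ) / (1 - F ζ)) := by
    have := hne ζ hζ1
    have e : F ζ * (K ζ + a) = K ζ - a := by rw [hFe]; field_simp
    field_simp
    linear_combination -e
  have e3 : K ζ - a * ((1 + ζ) / (1 - ζ)) =
      2 * (a * (ζ * (dslope F 0 ζ - 1))) / ((1 - F ζ) * (1 - ζ)) := by
    rw [e2, mul_sub ζ, ← e1]
    field_simp
    ring
  have q4 : ‖dslope F 0 ζ - 1‖ ≤ ‖1 - p‖ + ‖dslope F 0 ζ - p‖ := by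
    rw [show dslope F 0 ζ - 1 = (dslope F 0 ζ - p) - (1 - p) by ring, add_comm]
    exact norm_sub_le _ _
  have q5 : ‖(a : ℂ) * (ζ * (dslope F 0 ζ - 1))‖ ≤ √(2 * A * e) + 2 * e / c := by
    rw [norm_mul, norm_mul, Complex.norm_real, Real.norm_of_nonneg ha.le]
    have : ‖ζ‖ * ‖dslope F 0 ζ - 1‖ ≤ 1 * (‖1 - p‖ + ‖dslope F 0 ζ - p‖) := by
      gcongr; linarith
    nlinarith
  rw [e3, norm_div, norm_mul, norm_mul (1 - F ζ), Complex.norm_two, sq]
  gcongr

theorem rigid (L δ η : ℝ) (hL : 1 ≤ L) (hδ : 0 < δ) (hη : 0 < η) :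
    ∃ ε : ℝ, 0 < ε ∧ ∀ g : ℂ → ℂ, DifferentiableOn ℂ g HH → (∀ w ∈ HH, 0 ≤ (g w).re) →
      ∀ z ∈ HH, ‖g z‖ ≤ δ * z.re → (g z).re / z.re - (deriv g z).re ≤ ε →
      ∀ w ∈ Box z L, ‖g w - g z - (((g z).re / z.re : ℝ) : ℂ) * (w - z)‖ ≤ η * z.re := by
  obtain ⟨c, hc⟩ : ∃ c : ℝ, c = 2 / L / ((1 + L) ^ 2 + L ^ 2) := ⟨_, rfl⟩
  have c0 : 0 < c := by rw [hc]; positivity
  have c1 : c ≤ 1 := by
    rw [hc, div_div, div_le_one (by positivity)]; nlinarith
  have hcont : ∀ᶠ ε : ℝ in 𝓝 0,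
      2 * (√(4 * (δ + ε) * ε) + 4 * ε / c) / c ^ 2 + ε * (2 * L) < η :=
    (by fun_prop : Continuous fun ε : ℝ =>
      2 * (√(4 * (δ + ε) * ε) + 4 * ε / c) / c ^ 2 + ε * (2 * L)).continuousAt.eventually_lt
      continuousAt_const (by simpa using hη)
  obtain ⟨ε, h1, hε⟩ :=
    ((hcont.filter_mono nhdsWithin_le_nhds).and (self_mem_nhdsWithin (s := Ioi 0))).exists
  replace hε : 0 < ε := hε
  refine ⟨ε, hε, fun g hg hre z hz hgz hd w ⟨w1, w2, w3⟩ => ?_⟩
  obtain ⟨x, hx⟩ : ∃ x, x = z.re := ⟨_, rfl⟩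
  have x0 : 0 < x := hx ▸ hz
  have x0' : (x : ℂ) ≠ 0 := by exact_mod_cast x0.ne'
  rw [← hx] at hgz hd w1 w2 w3 ⊢
  have hz' : z = x + z.im * Complex.I := by rw [hx, Complex.re_add_im]
  let W : ℂ → ℂ := fun ζ => z.im * Complex.I + x * ((1 + ζ) / (1 - ζ))
  have ne1 : ∀ ζ ∈ ball (0 : ℂ) 1, 1 - ζ ≠ 0 := fun ζ hζ h => by
    rw [sub_eq_zero] at h
    simp [← h] at hζ
  have Wm : ∀ ζ ∈ ball (0 : ℂ) 1, W ζ ∈ HH := fun ζ hζ => by
    have h2 : ‖ζ‖ ^ 2 < 1 := by nlinarith [norm_nonneg ζ, mem_ball_zero_iff.1 hζ]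
    have h3 := Complex.normSq_pos.2 (ne1 ζ hζ)
    rw [Complex.sq_norm, Complex.normSq_apply] at h2
    have h4 : 0 < ((1 + ζ) / (1 - ζ)).re := by
      rw [Complex.div_re, ← add_div]
      refine div_pos ?_ h3
      simp only [Complex.add_re, Complex.sub_re, Complex.add_im, Complex.sub_im, Complex.one_re,
        Complex.one_im]
      nlinarith
    change 0 < (W ζ).re
    simpa [W] using mul_pos x0 h4
  have Wd : DifferentiableOn ℂ W (ball 0 1) :=
    (((differentiableOn_id.const_add 1).div (differentiableOn_id.const_sub 1) ne1).const_mul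
      _).const_add _
  have W0 : W 0 = z := by simp only [W]; rw [add_zero, sub_zero, div_one, mul_one, add_comm, ← hz']
  have W1 : HasDerivAt W (2 * x) 0 := by
    have := ((((hasDerivAt_id (0 : ℂ)).const_add 1).fun_div ((hasDerivAt_id (0 : ℂ)).const_sub 1)
      (by simp)).const_mul (x : ℂ)).const_add (z.im * Complex.I)
    refine this.congr_deriv ?_
    simp only [id]
    ring
  have ho : HH ∈ 𝓝 z := (isOpen_lt continuous_const Complex.continuous_re).mem_nhds hz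
  have g1 : HasDerivAt (fun ζ => g (W ζ) + (-((g z).im * Complex.I) + (x * ε : ℝ)))
      (deriv g z * (2 * x)) 0 :=
    (HasDerivAt.comp 0 (by rw [W0]; exact (hg.differentiableAt ho).hasDerivAt) W1).add_const _
  obtain ⟨s, hs⟩ : ∃ s : ℂ, s = (w - z.im * Complex.I) / x := ⟨_, rfl⟩
  have s1 : s.re = w.re / x := by rw [hs, Complex.div_ofReal_re]; simp
  have s2 : s.im = (w.im - z.im) / x := by rw [hs, Complex.div_ofReal_im]; simp
  have s3 : 1 / L ≤ s.re := by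
    rw [s1, le_div_iff₀ x0, one_div_mul_eq_div]; exact w1
  have s4 : s.re ≤ L := by rw [s1, div_le_iff₀ x0]; exact w2
  have s5 : |s.im| ≤ L := by rw [s2, abs_div, abs_of_pos x0, div_le_iff₀ x0]; exact w3
  have L0 : 0 < 1 / L := by positivity
  have sn : s + 1 ≠ 0 := fun h => by
    have := congrArg Complex.re h
    simp only [Complex.add_re, Complex.one_re, Complex.zero_re] at this
    linarith
  have hζ : ‖(s - 1) / (s + 1)‖ ≤ 1 - c := by
    rw [norm_div, div_le_iff₀ (norm_pos_iff.2 sn),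
      ← sq_le_sq₀ (norm_nonneg _) (mul_nonneg (by linarith) (norm_nonneg _)), mul_pow,
      Complex.sq_norm, Complex.sq_norm]
    simp only [Complex.normSq_apply, Complex.sub_re, Complex.add_re, Complex.sub_im, Complex.add_im,
      Complex.one_re, Complex.one_im, sub_zero, add_zero]
    have b1 : s.im * s.im ≤ L ^ 2 := by rw [← sq, ← sq_abs]; gcongr
    have b2 : (s.re + 1) * (s.re + 1) + s.im * s.im ≤ (1 + L) ^ 2 + L ^ 2 := by nlinarith
    have b3 : c * ((1 + L) ^ 2 + L ^ 2) = 2 * (1 / L) := by rw [hc]; field_simp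
    have b4 := mul_le_mul_of_nonneg_left b2 c0.le
    nlinarith [mul_nonneg (sq_nonneg c) (add_nonneg (mul_self_nonneg (s.re + 1))
      (mul_self_nonneg s.im))]
  have e1 : (1 + (s - 1) / (s + 1)) / (1 - (s - 1) / (s + 1)) = s := by
    rw [show 1 - (s - 1) / (s + 1) = 2 / (s + 1) by field_simp; ring]
    field_simp
    ring
  have e2 : W ((s - 1) / (s + 1)) = w := by
    simp only [W]; rw [e1, hs]; field_simp; ring
  have r0 := hre z hz
  have r1 : (g z).re ≤ δ * x := (Complex.re_le_norm _).trans hgz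
  have key := rigid652_disc (K := fun ζ => g (W ζ) + (-((g z).im * Complex.I) + (x * ε : ℝ)))
    ((hg.comp Wd Wm).add_const _) (fun ζ hζ => by
      have := hre _ (Wm ζ hζ)
      have h2 := mul_pos x0 hε
      simp only [Complex.add_re, Complex.neg_re, Complex.ofReal_re, Complex.mul_re, Complex.I_re,
        Complex.ofReal_im, Complex.I_im]
      linarith) (a := (g z).re + x * ε) (A := (δ + ε) * x) (e := 2 * x * ε) (by positivity)
    (by rw [W0]; apply Complex.ext <;> simp) (by linarith) (by positivity)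
    (by
      rw [g1.deriv, show (2 * x : ℂ) = ((2 * x : ℝ) : ℂ) by push_cast; rfl, Complex.re_mul_ofReal]
      rw [sub_le_iff_le_add, div_le_iff₀ x0] at hd
      linarith) c0 hζ
  rw [e1, e2] at key
  have e3 : g w - g z - (((g z).re / x : ℝ) : ℂ) * (w - z) =
      g w + (-((g z).im * Complex.I) + (x * ε : ℝ)) - (((g z).re + x * ε : ℝ) : ℂ) * s +
        ε * (w - z) := by
    have h2 := Complex.re_add_im (g z)
    rw [hs]
    push_cast
    field_simp
    linear_combination (x : ℂ) * h2 + (((g z).re : ℂ) + x * ε) * hz'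
  have e4 : ‖(ε : ℂ) * (w - z)‖ ≤ ε * (2 * L) * x := by
    rw [norm_mul, Complex.norm_real, Real.norm_of_nonneg hε.le, mul_assoc]
    gcongr
    refine (Complex.norm_le_abs_re_add_abs_im _).trans ?_
    have h2 : 0 < x / L := by positivity
    have h3 : |(w - z).re| ≤ L * x := by
      rw [Complex.sub_re, ← hx, abs_le]; constructor <;> nlinarith
    rw [Complex.sub_im]
    linarith
  have e5 : √(2 * ((δ + ε) * x) * (2 * x * ε)) = √(4 * (δ + ε) * ε) * x := by
    rw [show 2 * ((δ + ε) * x) * (2 * x * ε) = 4 * (δ + ε) * ε * (x * x) by ring,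
      Real.sqrt_mul (by positivity), Real.sqrt_mul_self x0.le]
  rw [e3]
  refine (norm_add_le _ _).trans ((add_le_add key e4).trans ?_)
  rw [e5]
  calc _ = (2 * (√(4 * (δ + ε) * ε) + 4 * ε / c) / c ^ 2 + ε * (2 * L)) * x := by ring
    _ ≤ η * x := by gcongr

end Pool.Agent.H28Z.Da
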